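import Pool.Agent.X224.BE.Emb

/-!
# A theory with finitely many bi-embeddability classes and uncountably many countable models

The models are generic partial orders with a monotone level function with values in `ω ∪ {∞}`, a
generic binary relation and a colour which is constant on comparable points. A countable model
embeds elementarily into another one if and only if the second one has a point of infinite level of
colour `c` whenever the first one has, for both colours `c`. Hence there are only finitely many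
similarity classes (and at least three). On the other hand the minimal points of infinite level can
form any countable structure for the binary relation.
-/

set_option autoImplicit false

open scoped FirstOrder

namespace Pool.Agent.Results.MP_683aef_lc.FourClasses

section general

variable {L : FirstOrder.Language.{0, 0}}

/-- The countable models of `T`, with universe `ℕ`. -/
def CModel (T : L.Theory) : Type := {S : L.Structure ℕ // @FirstOrder.Language.Theory.Model L ℕ S T}

/-- `A` elementarily embeds into `B`. -/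
def ElemEmb (A B : L.Structure ℕ) : Prop :=
  Nonempty (@FirstOrder.Language.ElementaryEmbedding L ℕ ℕ A B)

/-- `A` and `B` are isomorphic. -/
def Iso (A B : L.Structure ℕ) : Prop := Nonempty (@FirstOrder.Language.Equiv L ℕ ℕ A B)

/-- Similarity of countable models: mutual elementary embeddability. -/
def similar (T : L.Theory) : Setoid (CModel T) where
  r A B := ElemEmb A.1 B.1 ∧ ElemEmb B.1 A.1
  iseqv := ⟨fun A => ⟨⟨@FirstOrder.Language.ElementaryEmbedding.refl L ℕ A.1⟩,
      ⟨@FirstOrder.Language.ElementaryEmbedding.refl L ℕ A.1⟩⟩,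
    fun h => ⟨h.2, h.1⟩,
    fun {A B C} h h' => ⟨⟨@FirstOrder.Language.ElementaryEmbedding.comp L ℕ ℕ ℕ A.1 B.1 C.1
        h'.1.some h.1.some⟩,
      ⟨@FirstOrder.Language.ElementaryEmbedding.comp L ℕ ℕ ℕ C.1 B.1 A.1
        h.2.some h'.2.some⟩⟩⟩

/-- Isomorphism of countable models. -/
def isom (T : L.Theory) : Setoid (CModel T) where
  r A B := Iso A.1 B.1
  iseqv := ⟨fun A => ⟨@FirstOrder.Language.Equiv.refl L ℕ A.1⟩,
    fun {A B} h => ⟨@FirstOrder.Language.Equiv.symm L ℕ ℕ A.1 B.1 h.some⟩,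
    fun {A B C} h h' => ⟨@FirstOrder.Language.Equiv.comp L ℕ ℕ A.1 B.1 ℕ C.1 h'.some h.some⟩⟩

/-- The number of similarity classes of countable models of `T`. -/
noncomputable def numB (T : L.Theory) : Cardinal := Cardinal.mk (Quotient (similar T))

/-- The number of countable models of `T` up to isomorphism. -/
noncomputable def numI (T : L.Theory) : Cardinal := Cardinal.mk (Quotient (isom T))

end general

open Pool.Agent.X224.BE

/-- The relations of a countable model. -/
theorem data (A : CModel T0) : ∃ S : Str ℕ, Good S ∧ @Rep ℕ A.1 S ∧ EP S :=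
  letI := A.1
  model_data A.2

/-- A countable model from its relations. -/
noncomputable def mkModel (S : Str ℕ) (hS : Good S) (eS : EP S) : CModel T0 :=
  ⟨S.toStructure, letI := S.toStructure; model_of_ep (rep_toStructure S) hS eS⟩

theorem elemEmb_of {A B : CModel T0} {S R : Str ℕ} (hS : Good S) (rS : @Rep ℕ A.1 S) (eS : EP S)
    (hR : Good R) (rR : @Rep ℕ B.1 R) (eR : EP R) (h : ∀ c, hasTop S c → hasTop R c) :
    ElemEmb A.1 B.1 := by
  obtain ⟨F, hF⟩ := embed hS hR eR h
  refine ⟨@FirstOrder.Language.ElementaryEmbedding.mk Lg ℕ ℕ A.1 B.1 F ?_⟩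
  intro n φ x
  exact ((@bf_formula (Fin n) _ ℕ ℕ A.1 B.1 S R rS rR hS hR eS eR φ x (F ∘ x)
    (hF.comp x)).symm)

theorem hasTop_of_emb {α β : Type} [Lg.Structure α] [Lg.Structure β] {S : Str α} {R : Str β}
    (rS : Rep S) (rR : Rep R) (F : α ↪ₑ[Lg] β) (c : Bool) : hasTop S c → hasTop R c := by
  rintro ⟨x, hx, hc⟩
  refine ⟨F x, ?_, ?_⟩
  · rw [ENat.eq_top_iff_forall_gt]
    intro n
    have h1 := F.map_rel (n := 1) (Rel.lev n : Lg.Relations 1) ![x]
    have h2 := (rS.lev n ![x]).2 (by
      show (n : ℕ∞) < S.lev x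
      rw [hx]
      exact WithTop.coe_lt_top n)
    exact (rR.lev n _).1 (h1.2 h2)
  · have h1 := F.map_rel (n := 1) (Rel.col : Lg.Relations 1) ![x]
    have h2 := rS.col ![x]
    have h3 := rR.col (F ∘ ![x])
    have h4 : S.col x = true ↔ R.col (F x) = true := h2.symm.trans (h1.symm.trans h3)
    rw [← hc]
    exact (Bool.eq_iff_iff.2 h4).symm

theorem hasTop_of_elemEmb {A B : CModel T0} {S R : Str ℕ} (rS : @Rep ℕ A.1 S)
    (rR : @Rep ℕ B.1 R) (h : ElemEmb A.1 B.1) (c : Bool) : hasTop S c → hasTop R c :=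
  @hasTop_of_emb ℕ ℕ A.1 B.1 S R rS rR h.some c

/-- The similarity class of a model is determined by the colours of its points of infinite
level. -/
theorem similar_iff (A B : CModel T0) {S R : Str ℕ} (hS : Good S) (rS : @Rep ℕ A.1 S) (eS : EP S)
    (hR : Good R) (rR : @Rep ℕ B.1 R) (eR : EP R) :
    (similar T0).r A B ↔ ∀ c, hasTop S c ↔ hasTop R c :=
  ⟨fun h c => ⟨hasTop_of_elemEmb rS rR h.1 c, hasTop_of_elemEmb rR rS h.2 c⟩,
    fun h => ⟨elemEmb_of hS rS eS hR rR eR fun c => (h c).1,
      elemEmb_of hR rR eR hS rS eS fun c => (h c).2⟩⟩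

theorem numB_lt : numB T0 < Cardinal.aleph0 := by
  classical
  rw [numB, Cardinal.lt_aleph0_iff_finite]
  choose S hS rS eS using data
  let f : Quotient (similar T0) → Bool → Prop := Quotient.lift (fun A c => hasTop (S A) c)
    (fun A B h => by
      funext c
      exact propext ((similar_iff A B (hS A) (rS A) (eS A) (hS B) (rS B) (eS B)).1 h c))
  refine Finite.of_injective f ?_
  intro a b
  refine Quotient.inductionOn₂ a b fun A B h => Quotient.sound ?_
  exact (similar_iff A B (hS A) (rS A) (eS A) (hS B) (rS B) (eS B)).2 fun c =>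
    iff_of_eq (congrFun h c)

/-- Models with prescribed colours of the points of infinite level. -/
theorem exists_pattern (P : Bool → Prop) : ∃ (A : CModel T0) (S : Str ℕ), Good S ∧
    @Rep ℕ A.1 S ∧ EP S ∧ ∀ c, hasTop S c ↔ P c := by
  obtain ⟨S, y, -, hS, eS, h1, h2, h3, -, -⟩ := exists_model {c // P c} (fun _ _ => False)
    (fun c => c.1)
  refine ⟨mkModel S hS eS, S, hS, rep_toStructure S, eS, fun c => ?_⟩
  constructor
  · rintro ⟨v, hv, hc⟩
    obtain ⟨a, ha⟩ := h1 v hv
    have := hS.col _ _ ha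
    rw [h3, hc] at this
    rw [← this]
    exact a.2
  · intro hc
    exact ⟨y ⟨c, hc⟩, h2 _, h3 _⟩

theorem lt_numB : 2 < numB T0 := by
  have : Nonempty (Fin 3 ↪ Quotient (similar T0)) := by
    let P : Fin 3 → Bool → Prop := ![fun _ => False, fun c => c = true, fun _ => True]
    have hP : ∀ i j, (∀ c, P i c ↔ P j c) → i = j := by
      intro i j h
      have h1 := h true
      have h2 := h false
      fin_cases i <;> fin_cases j <;> simp [P] at h1 h2 ⊢
    choose A S hS rS eS hp using fun i => exists_pattern (P i)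
    refine ⟨⟨fun i => Quotient.mk (similar T0) (A i), ?_⟩⟩
    intro i j h
    have h1 := Quotient.exact h
    have h2 := (similar_iff (A i) (A j) (hS i) (rS i) (eS i) (hS j) (rS j) (eS j)).1 h1
    exact hP i j fun c => (hp i c).symm.trans ((h2 c).trans (hp j c))
  obtain ⟨e⟩ := this
  have h3 : (3 : Cardinal) ≤ numB T0 := by
    have := Cardinal.mk_le_of_injective e.injective
    rw [Cardinal.mk_fin] at this
    exact_mod_cast this
  exact lt_of_lt_of_le (by exact_mod_cast Nat.lt_succ_self 2) h3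

/-! ### Uncountably many models -/

/-- The minimal points of infinite level. -/
def minTop (S : Str ℕ) : Set ℕ := {x | S.lev x = ⊤ ∧ ∀ v, S.lev v = ⊤ → S.le v x → v = x}

/-- The codes. -/
abbrev YS (s : Set ℕ) : Type := Σ n : s, Fin (n.1 + 1)

theorem exists_coded (s : Set ℕ) : ∃ S : Str ℕ, Good S ∧ EP S ∧
    (∀ x ∈ minTop S, ∃ n ∈ s, {v | v ∈ minTop S ∧ S.Q x v}.ncard = n + 1) ∧
    ∀ n ∈ s, ∃ x ∈ minTop S, {v | v ∈ minTop S ∧ S.Q x v}.ncard = n + 1 := by
  obtain ⟨S, y, hy, hS, eS, h1, h2, h3, h4, h5⟩ := exists_model (YS s) (fun a b => a.1 = b.1)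
    (fun _ => true)
  have hmin : ∀ x, x ∈ minTop S ↔ ∃ a, y a = x := by
    intro x
    constructor
    · rintro ⟨hx, hx'⟩
      obtain ⟨a, ha⟩ := h1 x hx
      exact ⟨a, hx' _ (h2 a) ha⟩
    · rintro ⟨a, rfl⟩
      refine ⟨h2 a, fun v hv hva => ?_⟩
      obtain ⟨b, hb⟩ := h1 v hv
      have := h5 b a (hS.trans _ _ _ hb hva)
      subst this
      exact hS.antisymm _ _ hva hb
  have hn : ∀ a : YS s, {v | v ∈ minTop S ∧ S.Q (y a) v}.ncard = a.1.1 + 1 := by
    intro a
    have e : {v | v ∈ minTop S ∧ S.Q (y a) v} = (fun i => y ⟨a.1, i⟩) '' Set.univ := by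
      ext v
      rw [Set.mem_setOf_eq, hmin]
      constructor
      · rintro ⟨⟨⟨m, j⟩, rfl⟩, hQ⟩
        have := (h4 _ _).1 hQ
        simp only at this
        subst this
        exact ⟨j, trivial, rfl⟩
      · rintro ⟨j, -, rfl⟩
        exact ⟨⟨_, rfl⟩, (h4 _ _).2 rfl⟩
    rw [e, Set.ncard_image_of_injective _ (fun i j h => by
      have := hy h
      simpa using this), Set.ncard_univ, Nat.card_fin]
  refine ⟨S, hS, eS, ?_, ?_⟩
  · intro x hx
    obtain ⟨a, rfl⟩ := (hmin x).1 hx
    exact ⟨a.1.1, a.1.2, hn a⟩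
  · intro n hns
    exact ⟨y ⟨⟨n, hns⟩, 0⟩, (hmin _).2 ⟨_, rfl⟩, hn _⟩

/-- The minimal points of infinite level. -/
def minTop' {α : Type} (S : Str α) : Set α :=
  {x | S.lev x = ⊤ ∧ ∀ v, S.lev v = ⊤ → S.le v x → v = x}

theorem ncard_of_iso' {α β : Type} [Lg.Structure α] [Lg.Structure β] {S : Str α} {R : Str β}
    (rS : Rep S) (rR : Rep R) (e : α ≃[Lg] β) : (∀ x, x ∈ minTop' S → e x ∈ minTop' R) ∧
    ∀ x, {v | v ∈ minTop' R ∧ R.Q (e x) v}.ncard = {v | v ∈ minTop' S ∧ S.Q x v}.ncard := by
  have hle : ∀ a b, R.le (e a) (e b) ↔ S.le a b := fun a b =>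
    ((rR.le (e ∘ ![a, b])).symm.trans
      (FirstOrder.Language.Equiv.map_rel e (n := 2) (Rel.le : Lg.Relations 2) ![a, b])).trans
      (rS.le ![a, b])
  have hQ : ∀ a b, R.Q (e a) (e b) ↔ S.Q a b := fun a b =>
    ((rR.Q (e ∘ ![a, b])).symm.trans
      (FirstOrder.Language.Equiv.map_rel e (n := 2) (Rel.Q : Lg.Relations 2) ![a, b])).trans
      (rS.Q ![a, b])
  have hlev : ∀ a, R.lev (e a) = ⊤ ↔ S.lev a = ⊤ := by
    intro a
    rw [ENat.eq_top_iff_forall_gt, ENat.eq_top_iff_forall_gt]
    exact forall_congr' fun n => ((rR.lev n (e ∘ ![a])).symm.trans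
      (FirstOrder.Language.Equiv.map_rel e (n := 1) (Rel.lev n : Lg.Relations 1) ![a])).trans
      (rS.lev n ![a])
  have hmin : ∀ a, e a ∈ minTop' R ↔ a ∈ minTop' S := by
    intro a
    refine and_congr (hlev a) ?_
    rw [(FirstOrder.Language.Equiv.surjective e).forall]
    refine forall_congr' fun v => ?_
    rw [hlev, hle, (FirstOrder.Language.Equiv.injective e).eq_iff]
  refine ⟨fun x hx => (hmin x).2 hx, fun x => ?_⟩
  have : {v | v ∈ minTop' R ∧ R.Q (e x) v} = e '' {v | v ∈ minTop' S ∧ S.Q x v} := by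
    ext v
    obtain ⟨w, rfl⟩ := (FirstOrder.Language.Equiv.surjective e) v
    rw [Set.mem_setOf_eq, hmin, hQ, (FirstOrder.Language.Equiv.injective e).mem_set_image]
    rfl
  rw [this, Set.ncard_image_of_injective _ (FirstOrder.Language.Equiv.injective e)]

theorem ncard_of_iso {S R : Str ℕ} (h : Iso (L := Lg) S.toStructure R.toStructure) :
    ∃ e : ℕ → ℕ, (∀ x, x ∈ minTop S → e x ∈ minTop R) ∧
    ∀ x, {v | v ∈ minTop R ∧ R.Q (e x) v}.ncard = {v | v ∈ minTop S ∧ S.Q x v}.ncard :=
  ⟨_, @ncard_of_iso' ℕ ℕ S.toStructure R.toStructure S R (rep_toStructure S) (rep_toStructure R)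
    h.some⟩

theorem aleph0_lt_numI : Cardinal.aleph0 < numI T0 := by
  choose S hS eS h1 h2 using exists_coded
  let f : Set ℕ → Quotient (isom T0) := fun s => Quotient.mk (isom T0) (mkModel (S s) (hS s) (eS s))
  have key : ∀ s t, Iso (L := Lg) (S s).toStructure (S t).toStructure → s ⊆ t := by
    intro s t he n hn
    obtain ⟨x, hx, hc⟩ := h2 s n hn
    obtain ⟨e, h3, h4⟩ := ncard_of_iso he
    obtain ⟨m, hm, hc'⟩ := h1 t _ (h3 x hx)
    rw [h4, hc] at hc'
    have : n = m := by omega
    rw [this]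
    exact hm
  have hf : Function.Injective f := by
    intro s t h
    have h1 : Iso (L := Lg) (S s).toStructure (S t).toStructure := Quotient.exact h
    exact Set.Subset.antisymm (key s t h1)
      (key t s ⟨@FirstOrder.Language.Equiv.symm Lg ℕ ℕ (S s).toStructure (S t).toStructure h1.some⟩)
  have h3 := Cardinal.mk_le_of_injective hf
  refine lt_of_lt_of_le ?_ h3
  rw [Cardinal.mk_set, Cardinal.mk_nat]
  exact Cardinal.cantor _

/-- There is a complete theory `T` in a countable language with `2 < B_T(ω) < ω` and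
`I(T, ω) > ω`. -/
theorem result : ∃ (L : FirstOrder.Language.{0, 0}) (T : L.Theory),
    Countable (Σ n, L.Functions n) ∧ Countable (Σ n, L.Relations n) ∧ T.IsComplete ∧
    2 < numB T ∧ numB T < Cardinal.aleph0 ∧ Cardinal.aleph0 < numI T := by
  refine ⟨Lg, T0, ?_, ?_, T0_complete, lt_numB, numB_lt, aleph0_lt_numI⟩
  · exact inferInstanceAs (Countable (Σ _ : ℕ, Empty))
  · let f : (Σ n, Lg.Relations n) → ℕ ⊕ ℕ := fun r => match r with
      | ⟨_, Rel.le⟩ => Sum.inl 0
      | ⟨_, Rel.Q⟩ => Sum.inl 1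
      | ⟨_, Rel.col⟩ => Sum.inl 2
      | ⟨_, Rel.lev n⟩ => Sum.inr n
    have hf : Function.Injective f := by
      rintro ⟨_, r⟩ ⟨_, r'⟩ h
      cases r <;> cases r' <;> simp [f] at h <;> first | rfl | (subst h; rfl)
    exact hf.countable

end Pool.Agent.Results.MP_683aef_lc.FourClasses
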